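import Pool.Agent.Lib.helper12.TieC

set_option autoImplicit false
open Set Filter Topology

namespace Pool.Agent.Results.MP_c19a8f_an.Full
open Pool.Agent.Lib.H12Tie

theorem result (p q : Polynomial ℤ) (hp0 : p.eval 0 = 0) (hq0 : q.eval 0 = 0)
    (hp : 2 ≤ p.natDegree) (hq : 2 ≤ q.natDegree) :
    ∃ (X : Type) (_ : MetricSpace X) (_ : CompactSpace X) (_ : Nonempty X) (T S : X ≃ₜ X),
      (∀ x : X, Dense (Set.range fun n : ℤ => (T ^ n) x)) ∧
      (∀ x : X, Dense (Set.range fun n : ℤ => (S ^ n) x)) ∧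
      ∀ x : X, ¬ ∃ n : ℕ → ℤ, Tendsto n atTop atTop ∧
        Tendsto (fun i => (T ^ p.eval (n i)) x) atTop (nhds x) ∧
        Tendsto (fun i => (S ^ q.eval (n i)) x) atTop (nhds x) := by
  obtain ⟨ρ, φ, n0, H⟩ := sparse_main (fun b n => (if b then q else p).eval (n : ℤ))
    (fun b => by cases b; exacts [poly_sparse p hp, poly_sparse q hq])
    (fun b => by cases b; exacts [hp0, hq0])
  let _ : MetricSpace (X ρ) := TopologicalSpace.metrizableSpaceMetric _
  have hT : ∀ x : X ρ, Dense (Set.range fun n : ℤ => (T ρ ^ n) x) := fun x =>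
    (minimal x).mono (by
      rintro _ ⟨n, rfl⟩
      exact ⟨n, by simp only [T_zpow, T_iter]⟩)
  have hS : ∀ (n : ℤ) x, ((φ⁻¹ * T ρ * φ) ^ n) x = φ.symm ((T ρ ^ n) (φ x)) := fun n x => by
    have := conj_zpow (a := φ⁻¹) (b := T ρ) (i := n)
    rw [inv_inv] at this
    rw [this]; rfl
  refine ⟨X ρ, inferInstance, inferInstance, inferInstance, T ρ, φ⁻¹ * T ρ * φ, hT, fun x => ?_, ?_⟩
  · simp only [hS]
    exact φ.symm.surjective.denseRange.comp (hT (φ x)) φ.symm.continuous
  · rintro x ⟨n, hn, h1, h2⟩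
    have h3 := (φ.continuous.tendsto x).comp h2
    simp only [Function.comp_def, hS, Homeomorph.apply_symm_apply] at h3
    obtain ⟨i, hi, a1, a2⟩ := ((hn.eventually_ge_atTop n0).and ((h1.eventually (agree_nhds 0 x)).and
      (h3.eventually (agree_nhds 0 (φ x))))).exists
    have b1 := a1.2 0 (by simp)
    have b2 := a2.2 0 (by simp)
    rw [T_zpow, sh_v, zero_add] at b1 b2
    have e : ((n i).toNat : ℤ) = n i := by omega
    refine H x (n i).toNat (by omega) ?_
    simp only [e]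
    exact ⟨b1, b2⟩

end Pool.Agent.Results.MP_c19a8f_an.Full
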